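import Pool.Agent.Lib.MP_c624c9_nt.EX.Spec
import Pool.Agent.Lib.MP_c624c9_nt.EX.CF
import Pool.Agent.Lib.MP_c624c9_nt.EX.LEG
import Pool.Agent.Lib.MP_c624c9_nt.EX.ITR
import Pool.Agent.Lib.MP_c624c9_nt.EX.RG
import Pool.Agent.Lib.MP_c624c9_nt.EX.FamConv
import Pool.Agent.Lib.MP_c624c9_nt.EX.FB
import Pool.Agent.Lib.MP_c624c9_nt.EX.FC

/-!
# Q1 of MP_c624c9_nt is false

The definitions are in `Pool/Agent/Lib/MP_c624c9_nt/EX/Spec.lean`.
-/

set_option autoImplicit false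

open OnePoint
open Pool.Agent.Lib.MP_c624c9_nt.EX

namespace Pool.Agent.Results.MP_c624c9_nt.Exceptions

theorem isSeed_unique {k i i' : ℕ} (h : IsSeed k i) (h' : IsSeed k i') : i = i' := by
  rcases lt_trichotomy i i' with hlt | heq | hlt
  · exact absurd h.1 (h'.2 i hlt)
  · exact heq
  · exact absurd h'.1 (h.2 i' hlt)

theorem isFirstIter_unique {k : ℕ} {d : ℚ} {n n' : ℕ} (h : IsFirstIter k d n)
    (h' : IsFirstIter k d n') : n = n' := by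
  rcases lt_trichotomy n n' with hlt | heq | hlt
  · exact absurd h.2.1 (h'.2.2 n h.1 hlt)
  · exact heq
  · exact absurd h'.2.1 (h.2.2 n' h'.1 hlt)

theorem isFirstConv_unique {k j j' : ℕ} (h : IsFirstConv k j) (h' : IsFirstConv k j') :
    j = j' := by
  rcases lt_trichotomy j j' with hlt | heq | hlt
  · exact absurd h.1 (h'.2 j hlt)
  · exact heq
  · exact absurd h'.1 (h.2 j' hlt)

theorem family (w : ℕ) (hw : 2 ≤ w) :
    ¬ IsSquare ((2 * w - 1) * (2 * w + 1) ^ 3) ∧ IsSeed ((2 * w - 1) * (2 * w + 1) ^ 3) 3 ∧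
    IsFirstIter ((2 * w - 1) * (2 * w + 1) ^ 3)
      (conv ((2 * w - 1) * (2 * w + 1) ^ 3) 3) (2 * w + 1) ∧
    ∃ j, IsFirstConv ((2 * w - 1) * (2 * w + 1) ^ 3) j ∧
      (f ((2 * w - 1) * (2 * w + 1) ^ 3)
        (conv ((2 * w - 1) * (2 * w + 1) ^ 3) 3))^[2 * w + 1] ∞ ≠
        (((conv ((2 * w - 1) * (2 * w + 1) ^ 3) j : ℝ)) : OnePoint ℝ) := by
  obtain ⟨hsq, hseed⟩ := specFB famConv specRG w hw
  obtain ⟨hit, j, hj, hne⟩ := specFC specITR specRG specCF specLEG w hw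
  have hc : conv ((2 * w - 1) * (2 * w + 1) ^ 3) 3 =
      (((8 * w ^ 2 - 1) * (2 * w + 1) : ℕ) : ℚ) / ((4 * w : ℕ) : ℚ) := by
    rw [(famConv w hw).2.2.2]
    have h1 : 1 ≤ 8 * w ^ 2 := by nlinarith
    push_cast [Nat.cast_sub h1]
    rfl
  rw [← hc] at hit hne
  exact ⟨hsq, hseed, hit, j, hj, hne⟩

theorem not_q1At (w : ℕ) (hw : 2 ≤ w) : ¬ Q1At ((2 * w - 1) * (2 * w + 1) ^ 3) := by
  obtain ⟨-, hseed, hit, j, hj, hne⟩ := family w hw
  rintro ⟨i', n', j', h1, h2, h3, h4⟩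
  obtain rfl := isSeed_unique hseed h1
  obtain rfl := isFirstIter_unique hit h2
  obtain rfl := isFirstConv_unique hj h3
  exact hne h4

/-- MP_c624c9_nt: Q1 is false, and it fails for all `k = (2w-1)(2w+1)³`, `w ≥ 2`. -/
theorem result :
    -- the negated form of Q1
    (¬ ∀ k : ℕ, 0 < k → ¬ IsSquare k → Q1At k) ∧
    -- an explicit infinite family of exceptions
    (∀ w : ℕ, 2 ≤ w →
      ¬ IsSquare ((2 * w - 1) * (2 * w + 1) ^ 3) ∧ IsSeed ((2 * w - 1) * (2 * w + 1) ^ 3) 3 ∧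
      IsFirstIter ((2 * w - 1) * (2 * w + 1) ^ 3)
        (conv ((2 * w - 1) * (2 * w + 1) ^ 3) 3) (2 * w + 1) ∧
      ∃ j, IsFirstConv ((2 * w - 1) * (2 * w + 1) ^ 3) j ∧
        (f ((2 * w - 1) * (2 * w + 1) ^ 3)
          (conv ((2 * w - 1) * (2 * w + 1) ^ 3) 3))^[2 * w + 1] ∞ ≠
          (((conv ((2 * w - 1) * (2 * w + 1) ^ 3) j : ℝ)) : OnePoint ℝ)) := by
  refine ⟨?_, family⟩
  intro h
  exact not_q1At 2 le_rfl (h _ (by norm_num) (family 2 le_rfl).1)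

end Pool.Agent.Results.MP_c624c9_nt.Exceptions
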