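import Pool.Agent.Lib.MP_c624c9_nt.EX.Spec
import Pool.Agent.Lib.MP_c624c9_nt.EX.CF
import Pool.Agent.Lib.MP_c624c9_nt.EX.LEG
import Pool.Agent.Lib.MP_c624c9_nt.EX.ITR
import Pool.Agent.Lib.MP_c624c9_nt.EX.POW
import Pool.Agent.Lib.MP_c624c9_nt.EX.GRP
import Pool.Agent.Lib.MP_c624c9_nt.EX.RG
import Pool.Agent.Lib.MP_c624c9_nt.EX.SQF
import Pool.Agent.Lib.MP_c624c9_nt.EX.CNT
import Pool.Agent.Lib.MP_c624c9_nt.EX.Main
import Pool.Agent.Lib.MP_c624c9_nt.EX.Small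

/-!
# Where Q1 of MP_c624c9_nt is true

The definitions are in `Pool/Agent/Lib/MP_c624c9_nt/EX/Spec.lean`.
-/

set_option autoImplicit false

open OnePoint
open Pool.Agent.Lib.MP_c624c9_nt.EX

namespace Pool.Agent.Results.MP_c624c9_nt.TrueCases

/-- MP_c624c9_nt: a necessary condition for the failure of Q1; so Q1 is true for all squarefree
`k > 1` and for almost all `k`. -/
theorem result :
    -- if Q1 fails for `k`, the seed has the norm `± s²` with `s² ∣ 4k` and `k < s⁴ < 4k`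
    (∀ k : ℕ, ¬ IsSquare k → ¬ Q1At k → ∃ i s : ℕ, IsSeed k i ∧
      (nm k (conv k i).num (conv k i).den).natAbs = s ^ 2 ∧ s ^ 2 ∣ 4 * k ∧ k < s ^ 4 ∧
      s ^ 4 < 4 * k) ∧
    -- in particular Q1 is true for all squarefree `k > 1`
    (∀ k : ℕ, k ≠ 1 → Squarefree k → Q1At k) ∧
    -- and it fails for at most `12 X^(3/4)` of the `k ≤ X`
    (∀ X : ℕ, ({k : ℕ | k ≤ X ∧ ¬ IsSquare k ∧ ¬ Q1At k}.ncard : ℝ) ≤
      12 * (X : ℝ) ^ (3 / 4 : ℝ)) := by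
  have hmain : SpecMAIN := specMAIN specCF specLEG specITR specPOW specGRP specRG
  have h3 : ∀ k : ℕ, ¬ IsSquare k → ¬ Q1At k → ∃ i s : ℕ, IsSeed k i ∧
      (nm k (conv k i).num (conv k i).den).natAbs = s ^ 2 ∧ s ^ 2 ∣ 4 * k ∧ k < s ^ 4 ∧
      s ^ 4 < 4 * k := by
    intro k hk hq
    exact (hmain k hk).resolve_left hq
  refine ⟨h3, ?_, ?_⟩
  · intro k hk1 hsq
    exact squarefree_case specCF specLEG specITR specRG hmain specSQF k hk1 hsq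
  · intro X
    refine le_trans ?_ (specCNT X)
    have hsub : {k : ℕ | k ≤ X ∧ ¬ IsSquare k ∧ ¬ Q1At k} ⊆
        {k : ℕ | k ≤ X ∧ ∃ s : ℕ, s ^ 2 ∣ 4 * k ∧ k < s ^ 4 ∧ s ^ 4 < 4 * k} := by
      rintro k ⟨hkX, hk, hq⟩
      obtain ⟨i, s, -, -, h1, h2, h4⟩ := h3 k hk hq
      exact ⟨hkX, s, h1, h2, h4⟩
    have hfin : {k : ℕ | k ≤ X ∧ ∃ s : ℕ, s ^ 2 ∣ 4 * k ∧ k < s ^ 4 ∧ s ^ 4 < 4 * k}.Finite :=
      (Set.finite_Iic X).subset fun k hk => hk.1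
    exact_mod_cast Set.ncard_le_ncard hsub hfin

end Pool.Agent.Results.MP_c624c9_nt.TrueCases
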